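import Pool.Agent.Lib_helper25.OW.FL2
import Pool.Agent.Lib_helper33.OW.NumE

/-!
# The numeric facts of S5 and of CLONE-FLEX for the bound of the theorem
-/

set_option autoImplicit false
set_option linter.unusedSectionVars false
set_option linter.unusedVariables false

open scoped Classical
open Finset
open Pool.Agent.O2 (PC Cb CrOn pr ms dg nd addE)
open Pool.Agent.O3 (con hit Clq Non)
open Pool.Agent.OW
open Pool.Agent.OW28 (Add1 NoCE common_nbr)

namespace Pool.Agent.OW.S5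

theorem bt_mul {K : ℕ} (hK : 0 < K) {m : ℕ} (h : K ∣ m) :
    bt K m = 2 * ((m / K : ℕ) : ℤ) + (K - 1) := by
  unfold bt
  rw [Nat.mod_eq_zero_of_dvd h, vt_zero]

/-- the numeric facts hold for `bt K` -/
theorem T5_bt {K : ℕ} (hK : 7 ≤ K) : T5 K (bt K) := by
  have hK0 : 0 < K := by omega
  have key : ∀ m a s : ℕ, 1 ≤ a → m + (a + s - 1) + 1 = (m + a) + s := fun m a s h => by omega
  refine ⟨by omega, ?_, ?_, ?_, ?_, ?_, ?_, ?_, ?_, ?_⟩
  · intro m hm
    rw [bt_mul hK0 hm]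
    have : (7 : ℤ) ≤ K := by exact_mod_cast hK
    have h2 : (0 : ℤ) ≤ ((m / K : ℕ) : ℤ) := by positivity
    linarith
  · intro m m' hm hm'
    rw [bt_mul hK0 hm, bt_mul hK0 hm', bt_mul hK0 (dvd_add hm hm'), Nat.add_div_of_dvd_right hm]
    push_cast
    ring
  · intro m a s ha h1 h2 _
    have := N_F1' hK m (a + s - 1) (m + a) s h1 h2 (key m a s ha)
    unfold cst
    linarith
  · intro m a s ha h1 h2 _ hm hma
    have h3 : (m + a) % K = 0 := Nat.mod_eq_zero_of_dvd hma
    have h4 : m % K ≠ 0 := fun e => hm (Nat.dvd_of_mod_eq_zero e)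
    have := F7a (pre_vt hK) m (a + s - 1) (m + a) s h1 h2 (key m a s ha) h3 h4
    rw [← bt_eq, ← bt_eq, ← bt_eq] at this
    unfold cst
    linarith
  · intro m hm h1
    have := (N_N3 hK m h1).1 (Nat.mod_eq_zero_of_dvd hm)
    linarith
  · intro m hm h1
    have h0 : m % K ≠ 0 := fun e => hm (Nat.dvd_of_mod_eq_zero e)
    have h2 : 1 ≤ m := by
      rcases Nat.eq_zero_or_pos m with rfl | h
      · simp at h0
      · exact h
    exact (N_N3 hK m h2).2.2 (by omega)
  · intro m hm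
    have h2 : 1 ≤ m := by
      rcases Nat.eq_zero_or_pos m with rfl | h
      · simp at hm
      · exact h
    exact (N_N3 hK m h2).2.1 hm
  · intro m a s ha h1 h2 _ hm hma
    have h3 : (m + a) % K = 0 := Nat.mod_eq_zero_of_dvd hma
    have := F7c (pre_vt hK) m (a + s - 1) (m + a) s h1 h2 (key m a s ha) h3 hm
    rw [← bt_eq, ← bt_eq, ← bt_eq] at this
    unfold cst
    linarith
  · intro m a s ha h1 h2 _ hm hma
    have h3 : (m + a) % K = 0 := Nat.mod_eq_zero_of_dvd (dvd_add hm hma)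
    have h4 : m % K = 0 := Nat.mod_eq_zero_of_dvd hm
    have := F7b (pre_vt hK) m (a + s - 1) (m + a) s h1 h2 (key m a s ha) h3 h4
    rw [← bt_eq, ← bt_eq, ← bt_eq] at this
    have h5 : (7 : ℤ) ≤ K := by exact_mod_cast hK
    unfold cst
    linarith

/-- CLONE-FLEX for `bt K` -/
theorem flex2_bt {K i : ℕ} {V : Type} {G : SimpleGraph V} {S : Finset V} (h : Cex G S K (bt K))
    (hK : 7 ≤ K) (hA : AE G S K i) (hi : 2 * i ≤ K) (hA1 : Add1 G S K)
    (hce : NoCE G S K) (hY : ∀ R ⊆ S, R ≠ S → K + 1 ≤ R.card → 5 ≤ Yy G K (bt K) R)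
    (hr : (S.card - 1) % K = K - 3)
    {x v : V} (hx : x ∈ S) (hlow : dg G S x = K) (hv : v ∈ S) (hxv : G.Adj x v)
    {R : Finset V} (cf : CFlex G S K (bt K) i v x R) : Clq G (cn G S v x) := by
  refine flex2 h hK (T5_bt hK) hA hi hA1 hce hY hr ?_ ?_ ?_ ?_ hx hlow hv hxv cf
  · intro m
    exact beta_add_K (pre_vt hK) m
  · intro m
    exact D2 (pre_vt hK) m
  · intro m hm
    exact D2' (pre_vt hK) m hm
  · intro m
    exact D3 (pre_vt hK) m

end Pool.Agent.OW.S5
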