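import Pool.Agent.Lib_helper25.OW.T3
import Pool.Agent.Lib_helper51.OW.C2
import Pool.Agent.Lib_helper53.OW.C4
import Pool.Agent.Lib_helper28.OW.S4a

/-!
# The exceptional clone set does not exist
-/

set_option autoImplicit false
set_option linter.unusedSectionVars false
set_option linter.unusedVariables false

open scoped Classical
open Finset
open Pool.Agent.O2 (PC Cb CrOn pr ms dg nd addE)
open Pool.Agent.O3 (con hit Clq Non)
open Pool.Agent.OW
open Pool.Agent.OW28 (Add1 NoCE common_nbr)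

namespace Pool.Agent.OW.S5

variable {V : Type}

/-- the exceptional clone set contains a clique whose vertices are low, but at most three -/
theorem flex_clique {K i : ℕ} {β : ℕ → ℤ} {G : SimpleGraph V} {S : Finset V} (h : Cex G S K β)
    (T : T5 K β) (hA : AE G S K i) (hi : 2 * i ≤ K)
    (hY : ∀ R ⊆ S, R ≠ S → K + 1 ≤ R.card → 3 ≤ Yy G K β R)
    {x v : V} (hx : x ∈ S) (hlow : dg G S x = K) (hv : v ∈ S) (hxv : G.Adj x v)
    (hq : ¬ Clq G (cn G S v x)) {R : Finset V} (cf : CFlex G S K β i v x R) :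
    ∃ Q ⊆ S, Q.card = K ∧ Clq G Q ∧ (Q.filter fun t => ¬ dg G S t = K).card ≤ 3 := by
  have hK4 := T.hK
  have hK : 0 < K := by omega
  set G' := clo G S v x with hG'
  have hvR : v ∉ R := fun hv' => (mem_erase.1 (cf.sub hv')).1 rfl
  have hRS : R ⊆ S := cf.sub.trans (erase_subset _ _)
  have hRne : R ≠ S := fun e => hvR (e ▸ hv)
  have hHc : (insert v R).card = R.card + 1 := card_insert_of_notMem hvR
  have hRc := cf.card
  have hres : K ∣ R.card := by
    have h1 := cf.res
    have h2 := Nat.div_add_mod (R.card - 1) K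
    rw [h1] at h2
    refine ⟨(R.card - 1) / K + 1, ?_⟩
    rw [mul_add]
    omega
  have hadj : ∀ a ∈ R, ∀ c ∈ R, (G'.Adj a c ↔ G.Adj a c) := fun a ha c hc =>
    clo_adj (fun e => hvR (e ▸ ha)) (fun e => hvR (e ▸ hc))
  have hT : Tgt K β G' (insert v R) := by
    refine ⟨cf.cr, by rw [hHc, Nat.add_sub_cancel]; exact hres, ?_⟩
    have h1 := cf.dfc
    have h2 := cf.dfR
    unfold Yy
    rw [hHc, Nat.add_sub_cancel]
    linarith
  have ih : IH K β ((insert v R).card + 1) := by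
    intro V' G'' S' h1 h2
    have h3 := cf.card'
    exact h.ih V' G'' S' h1 (by omega)
  have hsm : ∀ R₁, PS G' (insert v R) R₁ → Yy G' K β R₁ ≤ 2 → v ∈ R₁ := by
    intro R₁ hR₁ hY₁
    by_contra hvR₁
    have hsub : R₁ ⊆ R := by
      intro a ha
      rcases mem_insert.1 (hR₁.sub ha) with h1 | h1
      · exact absurd (h1 ▸ ha) hvR₁
      · exact h1
    have hg := (hT.gap T ih hR₁).2
    have hd : K ∣ R₁.card - 1 := by
      by_contra hd
      have h1 := hg hd
      have hK4' : (4 : ℤ) ≤ K := by exact_mod_cast hK4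
      linarith
    have h2 : 2 ≤ R₁.card := by
      obtain ⟨p, hp, q, hq', hpq, -⟩ := hR₁.non
      have h3 : ({p, q} : Finset V) ⊆ R₁ := by
        intro a ha
        rcases mem_insert.1 ha with h4 | h4
        · rw [h4]; exact hp
        · rw [mem_singleton.1 h4]; exact hq'
      have h4 := card_le_card h3
      rwa [card_pair hpq] at h4
    have h3 : K + 1 ≤ R₁.card := by
      have := Nat.le_of_dvd (by omega) hd
      omega
    have h4 := hY R₁ (hsub.trans hRS) (fun e => hvR (hsub (e ▸ hv))) h3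
    have h5 : pr G' R₁ R₁ = pr G R₁ R₁ := by
      unfold pr
      congr 1
      apply filter_congr
      intro p hp
      have hp' := mem_product.1 hp
      exact hadj _ (hsub hp'.1) _ (hsub hp'.2)
    have h6 : Yy G' K β R₁ = Yy G K β R₁ := by
      unfold Yy df
      rw [h5]
    linarith
  obtain ⟨Q, hQ, hQc, hQq, hQd⟩ := lemmaT T ih hT (mem_insert_self v R) hsm
  have hvQ : v ∉ Q := fun h1 => (mem_erase.1 (hQ h1)).1 rfl
  have hQR : Q ⊆ R := by
    intro a ha
    have h1 := mem_erase.1 (hQ ha)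
    exact (mem_insert.1 h1.2).resolve_left h1.1
  have hQG : Clq G Q := fun a ha c hc hac =>
    (hadj a (hQR ha) c (hQR hc)).1 (hQq a ha c hc hac)
  have hcnc : (cn G S v x).card = K := (cn_card hv hxv).trans hlow
  have hmem : ∀ a, a ∈ cn G S v x ↔ a = x ∨ (a ≠ v ∧ a ∈ S ∧ G.Adj x a) := by
    intro a
    unfold cn
    rw [mem_insert, mem_erase, mem_filter]
  have hxR : x ∈ R := cf.cn ((hmem x).2 (Or.inl rfl))
  -- `x` is not in the clique
  have hxQ : x ∉ Q := by
    intro hxQ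
    apply hq
    have h1 : Q ⊆ cn G S v x := by
      intro a ha
      by_cases hax : a = x
      · exact (hmem a).2 (Or.inl hax)
      · exact (hmem a).2 (Or.inr ⟨fun e => hvQ (e ▸ ha), hRS (hQR ha),
          hQG x hxQ a ha (fun e => hax e.symm)⟩)
    have h2 : Q = cn G S v x := eq_of_subset_of_card_le h1 (by rw [hcnc, hQc])
    rw [← h2]
    exact hQG
  -- the new vertex is not adjacent to the clique
  have hvt : ∀ t ∈ Q, ¬ G'.Adj v t := by
    intro t ht hadj'
    have htv : t ≠ v := fun e => hvQ (e ▸ ht)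
    have htx : t ≠ x := fun e => hxQ (e ▸ ht)
    have h1 := ((clo_adj_v htv).1 hadj').resolve_left htx
    have h2 := hQd t ht
    have h3 : insert v (insert x (Q.erase t)) ⊆ (insert v R).filter fun y => G'.Adj t y := by
      intro a ha
      rcases mem_insert.1 ha with h4 | h4
      · rw [h4]; exact mem_filter.2 ⟨mem_insert_self _ _, hadj'.symm⟩
      · rcases mem_insert.1 h4 with h5 | h5
        · rw [h5]
          exact mem_filter.2 ⟨mem_insert_of_mem hxR,
            (hadj t (hQR ht) x hxR).2 h1.2.symm⟩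
        · have h6 := mem_erase.1 h5
          exact mem_filter.2 ⟨mem_insert_of_mem (hQR h6.2), hQq t ht a h6.2 h6.1.symm⟩
    have h4 := card_le_card h3
    have h5 : v ∉ insert x (Q.erase t) := by
      intro h6
      rcases mem_insert.1 h6 with h7 | h7
      · exact hxv.ne h7.symm
      · exact hvQ (mem_erase.1 h7).2
    have h6 : x ∉ Q.erase t := fun h7 => hxQ (mem_erase.1 h7).2
    rw [card_insert_of_notMem h5, card_insert_of_notMem h6, card_erase_of_mem ht, hQc] at h4
    unfold dg at h2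
    omega
  have hdR : ∀ t ∈ Q, dg G R t = K := by
    intro t ht
    rw [← hQd t ht]
    unfold dg
    congr 1
    ext a
    rw [mem_filter, mem_filter, mem_insert]
    constructor
    · rintro ⟨h1, h2⟩
      exact ⟨Or.inr h1, (hadj t (hQR ht) a h1).2 h2⟩
    · rintro ⟨h1, h2⟩
      have h3 : a ≠ v := by
        rintro rfl
        exact hvt t ht h2.symm
      have h4 := h1.resolve_left h3
      exact ⟨h4, (hadj t (hQR ht) a h4).1 h2⟩
  -- one good colouring
  obtain ⟨ψ, hψ⟩ := gd_exists h.cr hA hi hRS hRne (by omega)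
  obtain ⟨A, Z, hst⟩ := step_exists hK h.cr hRS (card_pos.1 (by omega)) hψ.1
  obtain ⟨hU, hZ, hg, hYQ⟩ := cf.step ψ A Z hψ hst
  have hbd : ∀ t ∈ R, (∃ y ∈ S \ R, G.Adj t y) → ψ t ∈ Z := by
    intro t ht ⟨y, hy, hty⟩
    have hyA : y ∈ A := by
      rw [← hU] at hy
      have h1 := mem_sdiff.1 hy
      exact (mem_union.1 h1.1).resolve_left h1.2
    exact (gain_zero_rainbow hg hyA).1 t ht hty.symm
  refine ⟨Q, hQR.trans hRS, hQc, hQG, ?_⟩
  have h1 : (Q.filter fun t => ¬ dg G S t = K).image ψ ⊆ Z := by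
    intro c hc
    obtain ⟨t, ht, rfl⟩ := mem_image.1 hc
    obtain ⟨htQ, htd⟩ := mem_filter.1 ht
    apply hbd t (hQR htQ)
    by_contra hno
    push Not at hno
    apply htd
    have h2 : dg G S t = dg G R t + dg G (S \ R) t := by
      rw [← Pool.Agent.O2.dg_union disjoint_sdiff, union_sdiff_of_subset hRS]
    have h3 : dg G (S \ R) t = 0 := by
      unfold dg
      rw [card_eq_zero, filter_eq_empty_iff]
      exact fun y hy => hno y hy
    rw [h2, h3, hdR t htQ]
    rfl
  have h2 : ((Q.filter fun t => ¬ dg G S t = K).image ψ).card =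
      (Q.filter fun t => ¬ dg G S t = K).card := by
    rw [card_image_iff]
    intro a ha c hc hac
    by_contra hne
    have ha' := (mem_filter.1 (mem_coe.1 ha)).1
    have hc' := (mem_filter.1 (mem_coe.1 hc)).1
    exact hψ.1 a (hQR ha') c (hQR hc') (hQG a ha' c hc' hne) hac
  rw [← h2, ← hZ]
  exact card_le_card h1

/-- a `K`-clique has at least four vertices which are not low -/
theorem four_high {K : ℕ} {β : ℕ → ℤ} {G : SimpleGraph V} {S : Finset V} (h : CrOn G S K)
    (hI : IH K β S.card) (hK : 7 ≤ K) (hA : Add1 G S K) (hce : NoCE G S K)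
    (hY : ∀ R ⊆ S, R ≠ S → K + 1 ≤ R.card → 5 ≤ Yy G K β R) (hYS : 2 ≤ Yy G K β S)
    (hr : (S.card - 1) % K = K - 3)
    (bK : ∀ m, β (m + K) = β m + 2)
    (b2 : ∀ m, β m ≤ β (m + (K - 1)) + (K - 3))
    (b2' : ∀ m, m % K ≠ 0 → β m ≤ β (m + (K - 1)) + 1)
    (b3 : ∀ m, β m ≤ β (m + (K - 2)) + (K - 2))
    {Q : Finset V} (hQ : Q ⊆ S) (hc : Q.card = K) (hq : Clq G Q) :
    4 ≤ (Q.filter fun t => ¬ dg G S t = K).card := by
  by_contra hlt
  have hKz : (7 : ℤ) ≤ K := by exact_mod_cast hK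
  set L := Q.filter fun t => dg G S t = K with hL
  set D := Q.filter fun t => ¬ dg G S t = K with hD
  have hLD : L.card + D.card = K := by
    rw [hL, hD, card_filter_add_card_filter_not, hc]
  have hLc : K ≤ L.card + 3 := by omega
  obtain ⟨u₀, hu₀⟩ : L.Nonempty := card_pos.1 (by omega)
  obtain ⟨w, hw, hwadj⟩ := common_nbr (by omega) h hA hQ hq hc
    ⟨u₀, (mem_filter.1 hu₀).1, (mem_filter.1 hu₀).2⟩
  obtain ⟨hwS, hwQ⟩ := mem_sdiff.1 hw
  have h2 := hce Q hQ hq hc w hwS hwQ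
  obtain ⟨t₁, ht₁⟩ : (Q.filter fun t => ¬ G.Adj w t).Nonempty := card_pos.1 (by omega)
  obtain ⟨ht₁Q, ht₁w⟩ := mem_filter.1 ht₁
  have ht₁ne : t₁ ≠ w := fun e => hwQ (e ▸ ht₁Q)
  have hu₀Q := (mem_filter.1 hu₀).1
  have hu₀d := (mem_filter.1 hu₀).2
  have hu₀w := hwadj u₀ hu₀Q hu₀d
  have hu₀t : u₀ ≠ t₁ := by
    rintro rfl
    exact ht₁w hu₀w.symm
  have ht₁L : t₁ ∉ L := by
    intro h3
    exact ht₁w (hwadj t₁ ht₁Q (mem_filter.1 h3).2).symm
  obtain ⟨W, hWu, hP⟩ := pair_low h (by omega) (hQ hu₀Q) hu₀d.le (hQ ht₁Q) hwS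
    (hq u₀ hu₀Q t₁ ht₁Q hu₀t) hu₀w ht₁ne (fun h3 => ht₁w h3.symm)
  have hLW : ∀ t ∈ L, t ∉ W := by
    intro t ht
    obtain ⟨htQ, htd⟩ := mem_filter.1 ht
    exact hP.no_low htd.le (hq t htQ t₁ ht₁Q (fun e => ht₁L (e ▸ ht))) (hwadj t htQ htd)
  have hWge := hP.card_ge
  have hcount := count_pair hP hI hq hc
  have hcard := count_card (W := W) hc
  -- the number of common vertices
  have ha1 : 1 ≤ (Q ∩ W).card := card_pos.2 ⟨t₁, mem_inter.2 ⟨ht₁Q, hP.hx⟩⟩
  have ha3 : (Q ∩ W).card ≤ 3 := by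
    have h3 : Q ∩ W ⊆ D := by
      intro t ht
      obtain ⟨htQ, htW⟩ := mem_inter.1 ht
      refine mem_filter.2 ⟨htQ, fun hd => hLW t (mem_filter.2 ⟨htQ, hd⟩) htW⟩
    have := card_le_card h3
    omega
  -- the extra edges
  have hwW : w ∈ W \ Q := mem_sdiff.2 ⟨hP.hy, hwQ⟩
  have he1 : L.card ≤ pr G (Q \ W) (W \ Q) := by
    rw [Pool.Agent.O2.pr_sum, card_eq_sum_ones]
    refine le_trans (sum_le_sum fun t ht => ?_) (sum_le_sum_of_subset (s := L) ?_)
    · obtain ⟨htQ, htd⟩ := mem_filter.1 ht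
      exact card_pos.2 ⟨w, mem_filter.2 ⟨hwW, hwadj t htQ htd⟩⟩
    · intro t ht
      exact mem_sdiff.2 ⟨(mem_filter.1 ht).1, hLW t ht⟩
  have he2 : W ∪ Q = S → K ≤ pr G (Q \ W) (W \ Q) + (Q ∩ W).card := by
    intro hS
    have h3 : (Q \ W).card ≤ pr G (Q \ W) (W \ Q) := by
      rw [Pool.Agent.O2.pr_sum, card_eq_sum_ones]
      refine sum_le_sum fun t ht => ?_
      have htQ := (mem_sdiff.1 ht).1
      have h4 := h.dg_ge (hQ htQ)
      have h5 : dg G S t = dg G Q t + dg G (S \ Q) t := by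
        rw [← Pool.Agent.O2.dg_union disjoint_sdiff, union_sdiff_of_subset hQ]
      have h6 := dg_of_clq hq htQ
      have h7 : S \ Q ⊆ W \ Q := by
        intro a ha
        obtain ⟨ha1, ha2⟩ := mem_sdiff.1 ha
        rw [← hS] at ha1
        exact mem_sdiff.2 ⟨(mem_union.1 ha1).resolve_right ha2, ha2⟩
      have h8 := Pool.Agent.O2.dg_mono (G := G) h7 t
      omega
    have h4 := card_sdiff_add_card_inter Q W
    omega
  have hPS : W ∪ Q ⊆ S := union_subset hP.sub hQ
  have hbig : W ∪ Q ≠ S → 5 ≤ Yy G K β (W ∪ Q) := fun hne => hY _ hPS hne (by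
    have := card_le_card (subset_union_left : W ⊆ W ∪ Q)
    omega)
  have hcm : (0 : ℤ) ≤ ((cmn G W t₁ w).card : ℤ) := by positivity
  obtain ⟨m, hm⟩ : ∃ m, W.card = m + 2 := ⟨W.card - 2, by omega⟩
  have hm2 : W.card - 2 = m := by omega
  rw [hm2] at hcount
  have he1z : (K : ℤ) - 3 ≤ (pr G (Q \ W) (W \ Q) : ℤ) := by
    have h3 : K ≤ pr G (Q \ W) (W \ Q) + 3 := by omega
    have h4 : (K : ℤ) ≤ (pr G (Q \ W) (W \ Q) : ℤ) + 3 := by exact_mod_cast h3
    linarith
  have he2z : W ∪ Q = S → (K : ℤ) ≤ (pr G (Q \ W) (W \ Q) : ℤ) + ((Q ∩ W).card : ℤ) := by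
    intro hS
    exact_mod_cast he2 hS
  rcases (by omega : (Q ∩ W).card = 1 ∨ (Q ∩ W).card = 2 ∨ (Q ∩ W).card = 3) with h3 | h3 | h3
  · rw [h3] at hcount hcard he2z
    have e1 : W.card + K - 1 - 1 = m + K := by omega
    rw [e1, bK] at hcount
    push_cast at hcount he2z
    by_cases hS : W ∪ Q = S
    · have h4 := he2z hS
      rw [hS] at hcount
      linarith
    · have h4 := hbig hS
      linarith
  · rw [h3] at hcount hcard he2z
    have e1 : W.card + K - 2 - 1 = m + (K - 1) := by omega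
    rw [e1] at hcount
    push_cast at hcount he2z
    by_cases hS : W ∪ Q = S
    · have h4 := he2z hS
      rw [hS] at hcount
      have h5 : m % K ≠ 0 := by
        intro h6
        rw [hS] at hcard
        have h7 : S.card - 1 = m + (K - 1) := by omega
        rw [h7, Nat.add_mod, h6, zero_add, Nat.mod_mod, Nat.mod_eq_of_lt (by omega)] at hr
        omega
      have h6 := b2' m h5
      linarith
    · have h4 := hbig hS
      have h5 := b2 m
      linarith
  · rw [h3] at hcount hcard he2z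
    have e1 : W.card + K - 3 - 1 = m + (K - 2) := by omega
    rw [e1] at hcount
    push_cast at hcount he2z
    have h5 := b3 m
    by_cases hS : W ∪ Q = S
    · rw [hS] at hcount
      linarith
    · have h4 := hbig hS
      linarith

/-- CLONE-FLEX: the exceptional clone set exists only if `N[x] - v` is a clique -/
theorem flex2 {K i : ℕ} {β : ℕ → ℤ} {G : SimpleGraph V} {S : Finset V} (h : Cex G S K β)
    (hK : 7 ≤ K) (T : T5 K β) (hA : AE G S K i) (hi : 2 * i ≤ K) (hA1 : Add1 G S K)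
    (hce : NoCE G S K) (hY : ∀ R ⊆ S, R ≠ S → K + 1 ≤ R.card → 5 ≤ Yy G K β R)
    (hr : (S.card - 1) % K = K - 3)
    (bK : ∀ m, β (m + K) = β m + 2)
    (b2 : ∀ m, β m ≤ β (m + (K - 1)) + (K - 3))
    (b2' : ∀ m, m % K ≠ 0 → β m ≤ β (m + (K - 1)) + 1)
    (b3 : ∀ m, β m ≤ β (m + (K - 2)) + (K - 2))
    {x v : V} (hx : x ∈ S) (hlow : dg G S x = K) (hv : v ∈ S) (hxv : G.Adj x v)
    {R : Finset V} (cf : CFlex G S K β i v x R) : Clq G (cn G S v x) := by
  by_contra hq
  obtain ⟨Q, h1, h2, h3, h4⟩ := flex_clique h T hA hi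
    (fun R hR hne hc => by have := hY R hR hne hc; linarith) hx hlow hv hxv hq cf
  have h5 : 2 ≤ Yy G K β S := by
    have := h.big
    unfold Yy
    linarith
  have h6 := four_high h.cr h.ih hK hA1 hce hY h5 hr bK b2 b2' b3 h1 h2 h3
  omega

end Pool.Agent.OW.S5
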