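import Pool.Agent.Lib_helper53.OW.Ext2

/-!
# Tight critical sets of residue 0: the gap

`b` is the bound: `df K G S ≤ b (|S| - 1)` for critical sets. A critical set is tight if equality
holds, and `K` divides `|S| - 1`.
-/

set_option autoImplicit false
set_option linter.unusedSectionVars false
set_option linter.unusedVariables false

open scoped Classical
open Finset
open Pool.Agent.O2 (PC Cb CrOn pr ms dg nd addE)
open Pool.Agent.O3 (con hit Clq Non)
open Pool.Agent.OW

namespace Pool.Agent.OW.S5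

variable {V : Type}

/-- numeric facts for tight sets of residue 0 -/
structure T5 (K : ℕ) (b : ℕ → ℤ) : Prop where
  hK : 4 ≤ K
  pos : ∀ m, K ∣ m → 0 < b m
  mul : ∀ m m', K ∣ m → K ∣ m' → b (m + m') = b m + b m' - (K - 1)
  n1 : ∀ m a s, 1 ≤ a → 1 ≤ s → s ≤ K → K + 1 ≤ a + s → 2 ≤ cst K b s m a
  n2 : ∀ m a s, 1 ≤ a → 1 ≤ s → s ≤ K → K + 1 ≤ a + s → ¬ K ∣ m → K ∣ m + a →
    2 * (K : ℤ) - 2 ≤ cst K b s m a
  n3a : ∀ m, K ∣ m → 1 ≤ m → b (m - 1) - b m + K + 1 ≤ 2
  n3b : ∀ m, ¬ K ∣ m → m % K ≠ 1 → b (m - 1) - b m + K + 1 < 2 * (K : ℤ) - 2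
  n3c : ∀ m, m % K = 1 → b (m - 1) - b m + K + 1 = 2 * (K : ℤ) - 2
  n4 : ∀ m a s, 1 ≤ a → 3 ≤ s → s ≤ K → K + 1 ≤ a + s → m % K = 1 → K ∣ m + a →
    2 * (K : ℤ) - 2 < cst K b s m a
  n5 : ∀ m a s, 1 ≤ a → 2 ≤ s → s ≤ K → K + 1 ≤ a + s → K ∣ m → K ∣ a → 4 < cst K b s m a

/-- a proper subset which is not a clique -/
structure PS {V : Type} (G : SimpleGraph V) (H R : Finset V) : Prop where
  sub : R ⊆ H
  ne : R ≠ H
  non : Non G R

/-- a tight critical set of residue 0 -/
structure Tgt {V : Type} (K : ℕ) (b : ℕ → ℤ) (G : SimpleGraph V) (H : Finset V) : Prop where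
  cr : CrOn G H K
  res : K ∣ H.card - 1
  eq : Yy G K b H = 0

theorem PS.nonempty {G : SimpleGraph V} {H R : Finset V} (h : PS G H R) : R.Nonempty := by
  obtain ⟨a, ha, -⟩ := h.non
  exact ⟨a, ha⟩

theorem Non.mono {G : SimpleGraph V} {X Y : Finset V} (h : X ⊆ Y) (hX : Non G X) : Non G Y := by
  obtain ⟨a, ha, c, hc, h1, h2⟩ := hX
  exact ⟨a, h ha, c, h hc, h1, h2⟩

theorem PS.cb {K : ℕ} {G : SimpleGraph V} {H R : Finset V} (hH : CrOn G H K) (h : PS G H R) :
    Cb G R K := hH.sub h.sub h.ne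

/-- a colouring of a proper subset which is not a clique gives the same colour to two vertices, or
can be chosen so -/
theorem PS.noninj {K : ℕ} {G : SimpleGraph V} {H R : Finset V} (hK : 0 < K) (hH : CrOn G H K)
    (h : PS G H R) : ∃ ψ : V → Fin K, PC G R ψ ∧ ∃ a ∈ R, ∃ c ∈ R, a ≠ c ∧ ψ a = ψ c := by
  by_cases hc : K < R.card
  · obtain ⟨ψ, hψ⟩ := (Pool.Agent.O2.cb_fin hK).1 (h.cb hH)
    refine ⟨ψ, hψ, ?_⟩
    have h1 : (univ : Finset (Fin K)).card < R.card := by simpa using hc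
    obtain ⟨a, ha, c, hc, hac, he⟩ :=
      exists_ne_map_eq_of_card_lt_of_maps_to h1 (f := ψ) (fun x _ => mem_coe.2 (mem_univ _))
    exact ⟨a, ha, c, hc, hac, he⟩
  · obtain ⟨a, ha, c, hc, hac, hna⟩ := h.non
    have h1 : Cb (⊤ : SimpleGraph V) (R.erase c) K := by
      have h2 := Pool.Agent.O2.cb_card (⊤ : SimpleGraph V) (R.erase c)
      refine Pool.Agent.O2.cb_mono ?_ h2
      have := card_erase_le (s := R) (a := c)
      omega
    obtain ⟨φ, hφ⟩ := (Pool.Agent.O2.cb_fin hK).1 h1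
    have hinj : ∀ u ∈ R, ∀ v ∈ R, u ≠ c → v ≠ c → u ≠ v → φ u ≠ φ v := by
      intro u hu v hv huc hvc huv
      exact hφ u (mem_erase.2 ⟨huc, hu⟩) v (mem_erase.2 ⟨hvc, hv⟩)
        ((SimpleGraph.top_adj u v).2 huv)
    refine ⟨fun v => if v = c then φ a else φ v, ?_, a, ha, c, hc, hac, ?_⟩
    · intro u hu v hv huv
      simp only
      by_cases h3 : u = c
      · subst h3
        rw [if_pos rfl, if_neg huv.ne']
        refine hinj a ha v hv hac huv.ne' ?_
        rintro rfl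
        exact hna huv.symm
      · by_cases h4 : v = c
        · subst h4
          rw [if_pos rfl, if_neg h3]
          refine hinj u hu a ha h3 hac ?_
          rintro rfl
          exact hna huv
        · rw [if_neg h3, if_neg h4]
          exact hinj u hu v hv h3 h4 huv.ne
    · simp only [if_neg hac, if_true]

/-- the extension step from a proper subset, with a colouring that is not injective -/
theorem step {K : ℕ} {b : ℕ → ℤ} {G : SimpleGraph V} {H R : Finset V} {ψ : V → Fin K} (hK : 0 < K)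
    (hcl : IH K b (H.card + 1)) (hH : CrOn G H K) (hR : PS G H R) (hψ : PC G R ψ)
    (hni : ∃ a ∈ R, ∃ c ∈ R, a ≠ c ∧ ψ a = ψ c) :
    ∃ (W : Finset V) (Z : Finset (Fin K)), W ⊆ H \ R ∧ 1 ≤ W.card ∧ 1 ≤ Z.card ∧ Z.card ≤ K ∧
      K + 1 ≤ W.card + Z.card ∧ CrOn (con G R ψ) (W.disjSum Z) K ∧
      (∀ i ∈ Z, ∃ v ∈ W, i ∈ hit G R ψ v) ∧ W.card + Z.card < H.card ∧
      Yy (con G R ψ) K b (W.disjSum Z) ≤ 0 ∧
      Yy G K b R = Yy G K b (R ∪ W) + cst K b Z.card (R.card - 1) W.card + 2 * gain G R ψ W Z -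
        Yy (con G R ψ) K b (W.disjSum Z) := by
  obtain ⟨W, Z, hW, hWn, hZn, hcr, hhit, hZb⟩ := ext_step hK hH hR.sub hR.nonempty hψ
  have hdis : Disjoint R W := by
    rw [disjoint_left]
    intro x hx hx'
    exact (mem_sdiff.1 (hW hx')).2 hx
  have hWc := card_pos.2 hWn
  have hZc := card_pos.2 hZn
  have hRc := card_pos.2 hR.nonempty
  have hZK : Z.card ≤ K := by simpa using card_le_univ Z
  have hcc : (W.disjSum Z).card = W.card + Z.card := card_disjSum _ _
  have hge := hcr.card_ge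
  rw [hcc] at hge
  have hlt : W.card + Z.card < H.card := by
    have h1 : Z.card < R.card := by
      have h2 : Z ⊆ R.image ψ := hZb.trans (image_subset_image (filter_subset _ _))
      have h3 : (R.image ψ).card < R.card := by
        obtain ⟨a, ha, c, hc, hac, he⟩ := hni
        have h4 : R.image ψ ⊆ (R.erase c).image ψ := by
          intro i hi
          obtain ⟨x, hx, rfl⟩ := mem_image.1 hi
          by_cases hxc : x = c
          · exact mem_image.2 ⟨a, mem_erase.2 ⟨hac, ha⟩, by rw [he, hxc]⟩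
          · exact mem_image_of_mem _ (mem_erase.2 ⟨hxc, hx⟩)
        have h5 := (card_le_card h4).trans card_image_le
        have h6 := card_erase_lt_of_mem hc
        omega
      exact (card_le_card h2).trans_lt h3
    have h5 := card_le_card hW
    have h6 := card_sdiff_add_card_eq_card hR.sub
    omega
  have hY : Yy (con G R ψ) K b (W.disjSum Z) ≤ 0 := by
    have h1 := hcl _ _ _ hcr (by rw [hcc]; omega)
    unfold Yy
    linarith
  refine ⟨W, Z, hW, hWc, hZc, hZK, hge, hcr, hhit, hlt, hY, ?_⟩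
  have h1 := df_ext (K := K) G hdis ψ Z
  unfold Yy cst
  rw [hcc]
  have h2 : (R ∪ W).card = R.card + W.card := card_union_of_disjoint hdis
  rw [h2]
  have h3 : R.card + W.card - 1 = R.card - 1 + W.card := by omega
  rw [h3]
  linarith

theorem union_ps {G : SimpleGraph V} {H R W : Finset V} (hR : PS G H R) (hW : W ⊆ H \ R)
    (hne : R ∪ W ≠ H) : PS G H (R ∪ W) :=
  ⟨union_subset hR.sub (hW.trans sdiff_subset), hne, Non.mono subset_union_left hR.non⟩

theorem union_eq {H R W : Finset V} (hR : R ⊆ H) (hW : W ⊆ H \ R) (he : R ∪ W = H) : W = H \ R := by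
  ext x
  constructor
  · exact fun h => hW h
  · intro h
    have h1 := mem_sdiff.1 h
    rw [← he] at h1
    exact (mem_union.1 h1.1).resolve_left h1.2

/-- the gap -/
theorem gap {K : ℕ} {b : ℕ → ℤ} (T : T5 K b) {G : SimpleGraph V} {H : Finset V}
    (hcl : IH K b (H.card + 1)) (hH : Tgt K b G H) : ∀ (n : ℕ) (R : Finset V), PS G H R →
    (H \ R).card = n → 2 ≤ Yy G K b R ∧ (¬ K ∣ R.card - 1 → 2 * (K : ℤ) - 2 ≤ Yy G K b R) := by
  intro n
  induction n using Nat.strong_induction_on with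
  | _ n ih =>
  intro R hR hn
  have hK : 0 < K := by have := T.hK; omega
  obtain ⟨ψ, hψ, hni⟩ := hR.noninj hK hH.cr
  obtain ⟨W, Z, hW, hWc, hZc, hZK, hge, hcr, hhit, hlt, hY, heq⟩ := step hK hcl hH.cr hR hψ hni
  have hg := gain_nonneg G R ψ W Z
  have hc1 := T.n1 (R.card - 1) W.card Z.card hWc hZc hZK hge
  have hRc := card_pos.2 hR.nonempty
  have hdis : Disjoint R W := by
    rw [disjoint_left]
    intro x hx hx'
    exact (mem_sdiff.1 (hW hx')).2 hx
  have hcu : (R ∪ W).card = R.card + W.card := card_union_of_disjoint hdis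
  by_cases hU : R ∪ W = H
  · rw [hU, hH.eq] at heq
    refine ⟨by linarith, fun hr => ?_⟩
    have h2 : K ∣ R.card - 1 + W.card := by
      have := hH.res
      rw [← hU, hcu] at this
      have h3 : R.card + W.card - 1 = R.card - 1 + W.card := by omega
      rwa [h3] at this
    have hc2 := T.n2 (R.card - 1) W.card Z.card hWc hZc hZK hge hr h2
    linarith
  · have hPU := union_ps hR hW hU
    have hlt' : (H \ (R ∪ W)).card < n := by
      rw [← hn]
      apply card_lt_card
      refine ⟨fun x hx => ?_, fun hx => ?_⟩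
      · have := mem_sdiff.1 hx
        exact mem_sdiff.2 ⟨this.1, fun h => this.2 (mem_union_left _ h)⟩
      · obtain ⟨w, hw⟩ := card_pos.1 hWc
        have := hx (hW hw)
        exact (mem_sdiff.1 this).2 (mem_union_right _ hw)
    obtain ⟨h1, h2⟩ := ih _ hlt' (R ∪ W) hPU rfl
    refine ⟨by linarith, fun hr => ?_⟩
    by_cases hd : K ∣ (R ∪ W).card - 1
    · have h3 : R.card + W.card - 1 = R.card - 1 + W.card := by omega
      rw [hcu, h3] at hd
      have hc2 := T.n2 (R.card - 1) W.card Z.card hWc hZc hZK hge hr hd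
      linarith
    · have := h2 hd
      linarith

theorem Tgt.gap {K : ℕ} {b : ℕ → ℤ} (T : T5 K b) {G : SimpleGraph V} {H R : Finset V}
    (hcl : IH K b (H.card + 1)) (hH : Tgt K b G H) (hR : PS G H R) :
    2 ≤ Yy G K b R ∧ (¬ K ∣ R.card - 1 → 2 * (K : ℤ) - 2 ≤ Yy G K b R) :=
  Pool.Agent.OW.S5.gap T hcl hH _ R hR rfl

/-- the step from a set with `Y ≤ 2` -/
theorem Tgt.eq2 {K : ℕ} {b : ℕ → ℤ} (T : T5 K b) {G : SimpleGraph V} {H R : Finset V}
    (hcl : IH K b (H.card + 1)) (hH : Tgt K b G H) (hR : PS G H R) (hY : Yy G K b R ≤ 2)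
    {ψ : V → Fin K} (hψ : PC G R ψ) (hni : ∃ a ∈ R, ∃ c ∈ R, a ≠ c ∧ ψ a = ψ c) :
    K ∣ R.card - 1 ∧ Yy G K b R = 2 ∧ ∃ c : Fin K, Tgt K b (con G R ψ) ((H \ R).disjSum {c}) ∧
      gain G R ψ (H \ R) {c} = 0 ∧ ((H \ R).disjSum {c}).card < H.card := by
  have hK : 0 < K := by have := T.hK; omega
  obtain ⟨W, Z, hW, hWc, hZc, hZK, hge, hcr, hhit, hlt, hY', heq⟩ := step hK hcl hH.cr hR hψ hni
  have hg := gain_nonneg G R ψ W Z
  have hc1 := T.n1 (R.card - 1) W.card Z.card hWc hZc hZK hge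
  have hRc := card_pos.2 hR.nonempty
  have hdis : Disjoint R W := by
    rw [disjoint_left]
    intro x hx hx'
    exact (mem_sdiff.1 (hW hx')).2 hx
  have hcu : (R ∪ W).card = R.card + W.card := card_union_of_disjoint hdis
  obtain ⟨hY2, hY3⟩ := hH.gap T hcl hR
  have hr : K ∣ R.card - 1 := by
    by_contra hr
    have := hY3 hr
    have hK3 : (4 : ℤ) ≤ K := by exact_mod_cast T.hK
    linarith
  have hU : R ∪ W = H := by
    by_contra hU
    have := (hH.gap T hcl (union_ps hR hW hU)).1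
    linarith
  have hWe := union_eq hR.sub hW hU
  have hKW : K ∣ W.card := by
    have := hH.res
    rw [← hU, hcu] at this
    have h3 : R.card + W.card - 1 = R.card - 1 + W.card := by omega
    rw [h3] at this
    exact (Nat.dvd_add_right hr).1 this
  rw [hU, hH.eq] at heq
  have hs : Z.card = 1 := by
    by_contra hs
    have := T.n5 (R.card - 1) W.card Z.card hWc (by omega) hZK hge hr hKW
    linarith
  obtain ⟨c, rfl⟩ := card_eq_one.1 hs
  have hYR : Yy G K b R = 2 := le_antisymm hY hY2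
  have hg0 : gain G R ψ W {c} = 0 := by linarith
  have hY0 : Yy (con G R ψ) K b (W.disjSum {c}) = 0 := by linarith
  refine ⟨hr, hYR, c, ?_, ?_, ?_⟩
  · rw [← hWe]
    refine ⟨hcr, ?_, hY0⟩
    rw [card_disjSum, card_singleton, Nat.add_sub_cancel]
    exact hKW
  · rw [← hWe]; exact hg0
  · rw [← hWe, card_disjSum]; exact hlt

end Pool.Agent.OW.S5
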