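import Pool.Agent.Lib_helper25.OW.T0

/-!
# A tight critical set of residue 0 without small sets is a clique
-/

set_option autoImplicit false
set_option linter.unusedSectionVars false
set_option linter.unusedVariables false

open scoped Classical
open Finset
open Pool.Agent.O2 (PC Cb CrOn pr ms dg nd addE)
open Pool.Agent.O3 (con hit Clq Non)
open Pool.Agent.OW

namespace Pool.Agent.OW.S5

variable {V : Type}

/-- the added edges inside `X` -/
theorem pr_addE (G : SimpleGraph V) (F : Finset (V × V)) (X : Finset V) :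
    pr (addE G F) X X ≤ pr G X X + 2 * (F.filter fun p => p.1 ∈ X ∧ p.2 ∈ X).card := by
  set F' := F.filter fun p => p.1 ∈ X ∧ p.2 ∈ X with hF'
  have h1 : ((X ×ˢ X).filter fun p => (addE G F).Adj p.1 p.2) ⊆
      ((X ×ˢ X).filter fun p => G.Adj p.1 p.2) ∪ (F' ∪ F'.image Prod.swap) := by
    intro p hp
    obtain ⟨h2, h3⟩ := mem_filter.1 hp
    have h4 := mem_product.1 h2
    rcases h3 with h3 | ⟨-, h3 | h3⟩
    · exact mem_union_left _ (mem_filter.2 ⟨h2, h3⟩)
    · exact mem_union_right _ (mem_union_left _ (mem_filter.2 ⟨h3, h4.1, h4.2⟩))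
    · exact mem_union_right _ (mem_union_right _
        (mem_image.2 ⟨_, mem_filter.2 ⟨h3, h4.2, h4.1⟩, rfl⟩))
  have h2 : (F' ∪ F'.image Prod.swap).card ≤ 2 * F'.card := by
    have h3 := card_union_le F' (F'.image Prod.swap)
    have h4 : (F'.image Prod.swap).card ≤ F'.card := card_image_le
    omega
  have h3 := card_le_card h1
  have h4 := card_union_le ((X ×ˢ X).filter fun p => G.Adj p.1 p.2) (F' ∪ F'.image Prod.swap)
  unfold pr
  omega

theorem cb_of_le {G H : SimpleGraph V} {S : Finset V} {k : ℕ}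
    (h : ∀ a ∈ S, ∀ b ∈ S, G.Adj a b → H.Adj a b) (hH : Cb H S k) : Cb G S k := by
  obtain ⟨φ, h1, h2⟩ := hH
  exact ⟨φ, h1, fun a ha b hb hab => h2 a ha b hb (h a ha b hb hab)⟩

/-- a subset of a colourable set which is not colourable after adding the edges of `F` contains a
small set -/
theorem addE_small {K : ℕ} {b : ℕ → ℤ} {G : SimpleGraph V} {R : Finset V} {F : Finset (V × V)}
    {n : ℕ} (ih : IH K b n) (hn : R.card < n) (hc : Cb G R K) (h : ¬ Cb (addE G F) R K) :
    ∃ R₁ ⊆ R, CrOn (addE G F) R₁ K ∧ Non G R₁ ∧ K + 1 ≤ R₁.card ∧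
      Yy G K b R₁ ≤ 2 * ((F.filter fun p => p.1 ∈ R₁ ∧ p.2 ∈ R₁).card : ℤ) := by
  obtain ⟨R₁, hR₁, hcr⟩ := Pool.Agent.O2.exists_crOn h
  refine ⟨R₁, hR₁, hcr, ?_, hcr.card_ge, ?_⟩
  · by_contra hnon
    apply hcr.1
    refine cb_of_le (H := G) ?_ (Pool.Agent.O2.cb_sub hR₁ hc)
    intro x hx y hy hxy
    by_contra hna
    exact hnon ⟨x, hx, y, hy, hxy.ne, hna⟩
  · have h1 := ih _ _ _ hcr (lt_of_le_of_lt (card_le_card hR₁) hn)
    have h2 := pr_addE G F R₁
    unfold Yy
    unfold df at h1 ⊢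
    have h3 : (pr (addE G F) R₁ R₁ : ℤ) ≤ pr G R₁ R₁ +
        2 * ((F.filter fun p => p.1 ∈ R₁ ∧ p.2 ∈ R₁).card : ℤ) := by exact_mod_cast h2
    linarith

/-- one edge can be added to a proper subset of a tight set without small sets -/
theorem one_edge {K : ℕ} {b : ℕ → ℤ} (hK : 0 < K) {G : SimpleGraph V} {H R : Finset V}
    (ih : IH K b (H.card + 1)) (hH : CrOn G H K) (hno : ∀ R, PS G H R → 2 < Yy G K b R)
    (hR : R ⊆ H) (hne : R ≠ H) {p q : V} (hp : p ∈ R) (hq : q ∈ R) (hpq : p ≠ q) :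
    ∃ ψ : V → Fin K, PC G R ψ ∧ ψ p ≠ ψ q := by
  have hcR := hH.sub hR hne
  have hcard : R.card < H.card + 1 := by
    have := card_le_card hR
    omega
  by_cases hc : Cb (addE G {(p, q)}) R K
  · obtain ⟨ψ, hψ⟩ := (Pool.Agent.O2.cb_fin hK).1 hc
    refine ⟨ψ, fun a ha c hc hac => hψ a ha c hc (Or.inl hac), ?_⟩
    exact hψ p hp q hq (Or.inr ⟨hpq, Or.inl (mem_singleton_self _)⟩)
  · exfalso
    obtain ⟨R₁, h1, h2, h3, h4, h5⟩ := addE_small ih hcard hcR hc
    have h6 : PS G H R₁ := ⟨h1.trans hR, fun e => hne (Subset.antisymm hR (e ▸ h1)), h3⟩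
    have h7 := hno _ h6
    have h8 : (({(p, q)} : Finset (V × V)).filter fun p => p.1 ∈ R₁ ∧ p.2 ∈ R₁).card ≤ 1 :=
      (card_filter_le _ _).trans (by simp)
    have h9 : ((({(p, q)} : Finset (V × V)).filter fun p => p.1 ∈ R₁ ∧ p.2 ∈ R₁).card : ℤ) ≤ 1 := by
      exact_mod_cast h8
    linarith

/-- a critical set with `K + 1` vertices is a clique -/
theorem clq_of_card {K : ℕ} {G : SimpleGraph V} {H : Finset V} (hH : CrOn G H K)
    (hc : H.card = K + 1) : Clq G H := by
  intro a ha c hc' hac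
  by_contra hna
  have h1 := hH.dg_ge ha
  have h2 : (H.filter fun y => G.Adj a y) ⊆ (H.erase a).erase c := by
    intro y hy
    obtain ⟨h3, h4⟩ := mem_filter.1 hy
    refine mem_erase.2 ⟨?_, mem_erase.2 ⟨h4.ne', h3⟩⟩
    rintro rfl
    exact hna h4
  have h3 := card_le_card h2
  rw [card_erase_of_mem (mem_erase.2 ⟨hac.symm, hc'⟩), card_erase_of_mem ha] at h3
  unfold dg at h1
  have h4 := hH.card_ge
  have h5 : 1 ≤ K := by
    by_contra h0
    have : K = 0 := by omega
    subst this
    have h6 : ({a, c} : Finset V).card ≤ H.card := card_le_card (by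
      intro x hx
      rcases mem_insert.1 hx with rfl | hx
      · exact ha
      · rw [mem_singleton] at hx; rw [hx]; exact hc')
    rw [card_pair hac] at h6
    omega
  omega

/-- a vertex of degree `K` in a set with positive deficiency -/
theorem exists_low {K : ℕ} {G : SimpleGraph V} {H : Finset V} (hH : CrOn G H K)
    (hpos : 0 < df G K H) : ∃ u ∈ H, dg G H u = K := by
  by_contra hno
  push Not at hno
  have h1 : ∀ u ∈ H, K + 1 ≤ dg G H u := by
    intro u hu
    have h2 := hH.dg_ge hu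
    have h3 := hno u hu
    omega
  have h2 := sum_le_sum h1
  rw [sum_const, smul_eq_mul, ← Pool.Agent.O2.pr_sum] at h2
  unfold df at hpos
  have h3 : ((H.card * (K + 1) : ℕ) : ℤ) ≤ pr G H H := by exact_mod_cast h2
  push_cast at h3
  linarith

/-- the pair set of two non-adjacent vertices of a critical set, `φ` the constant colouring -/
theorem pair_con {K : ℕ} {G : SimpleGraph V} {H : Finset V} (hK : 0 < K) (hH : CrOn G H K)
    {x y : V} (hx : x ∈ H) (hy : y ∈ H) (hxy : x ≠ y) (hna : ¬ G.Adj x y) (c : Fin K) :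
    ∃ A : Finset V, A ⊆ H \ {x, y} ∧ A.Nonempty ∧
      CrOn (con G {x, y} fun _ : V => c) (A.disjSum {c}) K ∧
      df G K ({x, y} ∪ A) = df (con G {x, y} fun _ : V => c) K (A.disjSum {c}) + K + 1 -
        2 * gain G {x, y} (fun _ : V => c) A {c} ∧
      ({x, y} ∪ A).card = A.card + 2 ∧
      ∀ u ∈ H, G.Adj u x → G.Adj u y → dg G H u ≤ K → u ∉ A := by
  have hsub : ({x, y} : Finset V) ⊆ H := by
    intro v hv
    rcases mem_insert.1 hv with rfl | hv
    · exact hx
    · rw [mem_singleton] at hv; rw [hv]; exact hy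
  have hpc : PC G {x, y} (fun _ : V => c) := by
    intro a ha d hd had
    exfalso
    have h1 : a = x ∨ a = y := by simpa using ha
    have h2 : d = x ∨ d = y := by simpa using hd
    rcases h1 with h1 | h1 <;> rcases h2 with h2 | h2 <;> rw [h1, h2] at had
    · exact G.irrefl had
    · exact hna had
    · exact hna had.symm
    · exact G.irrefl had
  obtain ⟨A, Z, hst⟩ := step_exists hK hH hsub ⟨x, mem_insert_self _ _⟩ hpc
  have hZ : Z = {c} := by
    apply Subset.antisymm
    · intro i hi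
      obtain ⟨z, -, hz⟩ := mem_image.1 (hst.Z_sub hi)
      rw [mem_singleton]
      exact hz.symm
    · intro i hi
      rw [mem_singleton] at hi
      obtain ⟨j, hj⟩ := hst.neZ
      obtain ⟨z, -, hz⟩ := mem_image.1 (hst.Z_sub hj)
      rw [hi, hz]
      exact hj
  subst hZ
  have hd := hst.df_eq
  have h2 : df G K ({x, y} : Finset V) = 2 * ((K : ℤ) + 1) := by
    unfold df
    have h3 : pr G {x, y} {x, y} = 0 := by
      unfold pr
      rw [card_eq_zero, filter_eq_empty_iff]
      intro p hp hadj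
      have h4 := mem_product.1 hp
      exact absurd rfl (hpc _ h4.1 _ h4.2 hadj)
    rw [h3, card_pair hxy]
    push_cast
    ring
  refine ⟨A, hst.hA, hst.neA, hst.cr, ?_, ?_, ?_⟩
  · rw [hd, h2, card_singleton]
    push_cast
    ring
  · rw [hst.card_union, card_pair hxy]; ring
  · intro u hu hux huy hud huA
    have := hst.absorb_two huA hud (mem_insert_self x {y})
      (mem_insert_of_mem (mem_singleton_self y)) hxy hux huy
    exact this.1 rfl

end Pool.Agent.OW.S5
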