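import Pool.Agent.Lib_helper25.OW.T1

/-!
# A tight critical set of residue 0 without small sets is a clique: proof
-/

set_option autoImplicit false
set_option linter.unusedSectionVars false
set_option linter.unusedVariables false

open scoped Classical
open Finset
open Pool.Agent.O2 (PC Cb CrOn pr ms dg nd addE)
open Pool.Agent.O3 (con hit Clq Non)
open Pool.Agent.OW

namespace Pool.Agent.OW.S5

variable {V : Type}

theorem tight_clique {K : ℕ} {b : ℕ → ℤ} (T : T5 K b) {G : SimpleGraph V} {H : Finset V}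
    (ih : IH K b (H.card + 1)) (hH : Tgt K b G H) (hno : ∀ R, PS G H R → 2 < Yy G K b R) :
    H.card = K + 1 := by
  have hK3 := T.hK
  have hK3' : (4 : ℤ) ≤ K := by exact_mod_cast hK3
  have hK : 0 < K := by omega
  by_contra hbig
  have hHc := hH.cr.card_ge
  -- a low vertex
  have hpos : 0 < df G K H := by
    have h1 := hH.eq
    have h2 := T.pos _ hH.res
    unfold Yy at h1
    linarith
  obtain ⟨u, hu, hud⟩ := exists_low hH.cr hpos
  -- two non-adjacent neighbours
  have hxy : ∃ x ∈ H, ∃ y ∈ H, x ≠ y ∧ G.Adj u x ∧ G.Adj u y ∧ ¬ G.Adj x y := by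
    by_contra hcon
    push Not at hcon
    set N := insert u (H.filter fun y => G.Adj u y) with hN
    have hNsub : N ⊆ H := by
      intro v hv
      rcases mem_insert.1 hv with rfl | hv
      · exact hu
      · exact (mem_filter.1 hv).1
    have hNc : N.card = K + 1 := by
      rw [hN, card_insert_of_notMem]
      · unfold dg at hud; rw [hud]
      · intro h
        exact G.irrefl (mem_filter.1 h).2
    have hNe : N ≠ H := by
      intro h
      rw [h] at hNc
      exact hbig hNc
    have hcb := hH.cr.sub hNsub hNe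
    obtain ⟨φ, hφ⟩ := (Pool.Agent.O2.cb_fin hK).1 hcb
    have h1 : (univ : Finset (Fin K)).card < N.card := by
      rw [hNc]; simp
    obtain ⟨a, ha, c, hc, hac, he⟩ :=
      exists_ne_map_eq_of_card_lt_of_maps_to h1 (f := φ) (fun x _ => mem_coe.2 (mem_univ _))
    refine hφ a ha c hc ?_ he
    rcases mem_insert.1 ha with h2 | h2
    · rcases mem_insert.1 hc with h3 | h3
      · exact absurd (h2.trans h3.symm) hac
      · rw [h2]; exact (mem_filter.1 h3).2
    · rcases mem_insert.1 hc with h3 | h3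
      · rw [h3]; exact (mem_filter.1 h2).2.symm
      · have h4 := mem_filter.1 h2
        have h5 := mem_filter.1 h3
        exact hcon a h4.1 c h5.1 hac h4.2 h5.2
  obtain ⟨x, hx, y, hy, hxy, hux, huy, hna⟩ := hxy
  -- the pair set
  obtain ⟨A, hA, hAn, hAcr, hAdf, hAc, hAlow⟩ := pair_con hK hH.cr hx hy hxy hna ⟨0, hK⟩
  have huA : u ∉ A := hAlow u hu hux huy hud.le
  set W : Finset V := {x, y} ∪ A with hW
  have hxW : x ∈ W := mem_union_left _ (mem_insert_self _ _)
  have hyW : y ∈ W := mem_union_left _ (mem_insert_of_mem (mem_singleton_self _))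
  have huW : u ∉ W := by
    intro h
    rcases mem_union.1 h with h | h
    · rcases mem_insert.1 h with h | h
      · exact hux.ne h
      · exact huy.ne (mem_singleton.1 h)
    · exact huA h
  have hWH : W ⊆ H := by
    intro v hv
    rcases mem_union.1 hv with h | h
    · rcases mem_insert.1 h with h | h
      · rw [h]; exact hx
      · rw [mem_singleton.1 h]; exact hy
    · exact (mem_sdiff.1 (hA h)).1
  have hWne : W ≠ H := fun h => huW (h ▸ hu)
  have hWps : PS G H W := ⟨hWH, hWne, x, hxW, y, hyW, hxy, hna⟩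
  have hAK : K ≤ A.card := by
    have := hAcr.card_ge
    rw [card_disjSum, card_singleton] at this
    omega
  have hAcH : (A.disjSum ({⟨0, hK⟩} : Finset (Fin K))).card < H.card + 1 := by
    rw [card_disjSum, card_singleton]
    have := card_le_card hWH
    omega
  have hAle := ih _ _ _ hAcr hAcH
  have hAcc : (A.disjSum ({⟨0, hK⟩} : Finset (Fin K))).card - 1 = W.card - 1 - 1 := by
    rw [card_disjSum, card_singleton]
    omega
  rw [hAcc] at hAle
  have hAg := gain_nonneg G {x, y} (fun _ : V => (⟨0, hK⟩ : Fin K)) A {⟨0, hK⟩}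
  have hYW : Yy G K b W ≤ b (W.card - 1 - 1) - b (W.card - 1) + K + 1 := by
    unfold Yy
    rw [hAdf]
    linarith
  have hWgap := hH.gap T ih hWps
  have hWno := hno W hWps
  have hWK : W.card = A.card + 2 := hAc
  -- residue 1
  have hr0 : ¬ K ∣ W.card - 1 := by
    intro h
    have := T.n3a _ h (by omega)
    linarith
  have hr1 : (W.card - 1) % K = 1 := by
    by_contra h
    have h1 := T.n3b _ hr0 h
    have h2 := hWgap.2 hr0
    linarith
  have hYW2 : Yy G K b W = 2 * (K : ℤ) - 2 := by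
    have h1 := T.n3c _ hr1
    have h2 := hWgap.2 hr0
    linarith
  -- every colouring of `W`
  have key : ∀ φ : V → Fin K, PC G W φ → ∃ Z : Finset (Fin K), Z = {φ x, φ y} ∧ φ x ≠ φ y ∧
      CrOn (con G W φ) ((H \ W).disjSum Z) K ∧ ∀ v ∈ H \ W, ∀ w ∈ W, G.Adj v w → φ w ∈ Z := by
    intro φ hφ
    have hni : ∃ a ∈ W, ∃ c ∈ W, a ≠ c ∧ φ a = φ c := by
      have h1 : (univ : Finset (Fin K)).card < W.card := by
        rw [card_univ, Fintype.card_fin]; omega
      obtain ⟨a, ha, c, hc, hac, he⟩ :=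
        exists_ne_map_eq_of_card_lt_of_maps_to h1 (f := φ) (fun x _ => mem_coe.2 (mem_univ _))
      exact ⟨a, ha, c, hc, hac, he⟩
    obtain ⟨B, Z, hB, hBc, hZc, hZK, hge, hcr, hhit, hlt, hY', heq⟩ :=
      step hK ih hH.cr hWps hφ hni
    have hg := gain_nonneg G W φ B Z
    have hc1 := T.n1 (W.card - 1) B.card Z.card hBc hZc hZK hge
    have hdis : Disjoint W B := by
      rw [disjoint_left]
      intro x hx hx'
      exact (mem_sdiff.1 (hB hx')).2 hx
    have hcu : (W ∪ B).card = W.card + B.card := card_union_of_disjoint hdis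
    have hcu' : (W ∪ B).card - 1 = W.card - 1 + B.card := by omega
    have hU : W ∪ B = H := by
      by_contra hU
      have hPU := union_ps hWps hB hU
      have h1 := hno _ hPU
      have h2 := hH.gap T ih hPU
      by_cases hd : K ∣ (W ∪ B).card - 1
      · rw [hcu'] at hd
        have hc2 := T.n2 (W.card - 1) B.card Z.card hBc hZc hZK hge hr0 hd
        linarith
      · have := h2.2 hd
        linarith
    have hdvd : K ∣ W.card - 1 + B.card := by
      rw [← hcu', hU]
      exact hH.res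
    have hBe := union_eq hWH hB hU
    have hc2 := T.n2 (W.card - 1) B.card Z.card hBc hZc hZK hge hr0 hdvd
    rw [hU, hH.eq] at heq
    have hZ2 : Z.card ≤ 2 := by
      by_contra hZ
      have := T.n4 (W.card - 1) B.card Z.card hBc (by omega) hZK hge hr1 hdvd
      linarith
    have hg0 : gain G W φ B Z = 0 := by linarith
    have huB : u ∈ B := by
      rw [hBe]
      exact mem_sdiff.2 ⟨hu, huW⟩
    have hzr : ∀ v ∈ B, (∀ y ∈ W, G.Adj v y → φ y ∈ Z) ∧
        ∀ y ∈ W, ∀ y' ∈ W, G.Adj v y → G.Adj v y' → φ y = φ y' → y = y' :=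
      fun v hv => gain_zero_rainbow hg0 hv
    have hxy' : φ x ≠ φ y := fun e => hxy ((hzr u huB).2 x hxW y hyW hux huy e)
    have hZe : Z = {φ x, φ y} := by
      symm
      apply eq_of_subset_of_card_le
      · intro i hi
        rcases mem_insert.1 hi with rfl | hi
        · exact (hzr u huB).1 x hxW hux
        · rw [mem_singleton.1 hi]
          exact (hzr u huB).1 y hyW huy
      · rw [card_pair hxy']
        exact hZ2
    refine ⟨Z, hZe, hxy', ?_, ?_⟩
    · rw [← hBe]; exact hcr
    · intro v hv w hw hvw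
      rw [← hBe] at hv
      exact (hzr v hv).1 w hw hvw
  -- a third vertex on the boundary
  have hw : ∃ w ∈ W, w ≠ x ∧ w ≠ y ∧ ∃ v ∈ H \ W, G.Adj v w := by
    by_contra hcon
    push Not at hcon
    have hB2 : (H \ W) ∪ {x, y} ⊆ H := by
      apply union_subset sdiff_subset
      intro v hv
      rcases mem_insert.1 hv with h | h
      · rw [h]; exact hx
      · rw [mem_singleton.1 h]; exact hy
    have hB3 : (H \ W) ∪ {x, y} ≠ H := by
      obtain ⟨a, ha⟩ := hAn
      intro h
      have h1 := hA ha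
      have h2 := mem_sdiff.1 h1
      have h3 := h2.1
      rw [← h] at h3
      rcases mem_union.1 h3 with h4 | h4
      · exact (mem_sdiff.1 h4).2 (mem_union_right _ ha)
      · exact h2.2 h4
    obtain ⟨ψ, hψ, hψxy⟩ := one_edge hK ih hH.cr hno hB2 hB3
      (mem_union_right _ (mem_insert_self x {y}))
      (mem_union_right _ (mem_insert_of_mem (mem_singleton_self y))) hxy
    obtain ⟨φ, hφ⟩ := (Pool.Agent.O2.cb_fin hK).1 (hWps.cb hH.cr)
    obtain ⟨Z, hZ, hxy', hcr, -⟩ := key φ hφ
    apply hcr.1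
    apply Pool.Agent.O2.cb_of_pc (φ := Sum.elim ψ fun i => if i = φ x then ψ x else ψ y)
    have hxm : x ∈ (H \ W) ∪ {x, y} := mem_union_right _ (mem_insert_self x {y})
    have hym : y ∈ (H \ W) ∪ {x, y} :=
      mem_union_right _ (mem_insert_of_mem (mem_singleton_self y))
    have hlr : ∀ v ∈ H \ W, ∀ i, i ∈ hit G W φ v → ψ v ≠ if i = φ x then ψ x else ψ y := by
      intro v hv i hi
      simp only [hit, mem_filter, mem_univ, true_and] at hi
      obtain ⟨w, hw, rfl, hvw⟩ := hi
      by_cases hwx : w = x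
      · rw [hwx, if_pos rfl]
        rw [hwx] at hvw
        exact hψ v (mem_union_left _ hv) x hxm hvw
      · by_cases hwy : w = y
        · rw [hwy, if_neg hxy'.symm]
          rw [hwy] at hvw
          exact hψ v (mem_union_left _ hv) y hym hvw
        · exact absurd hvw (hcon w hw hwx hwy v hv)
    rintro (a | i) ha (c | j) hc hac
    · exact hψ a (mem_union_left _ (inl_mem_disjSum.1 ha)) c
        (mem_union_left _ (inl_mem_disjSum.1 hc)) hac
    · exact hlr a (inl_mem_disjSum.1 ha) j hac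
    · exact (hlr c (inl_mem_disjSum.1 hc) i hac).symm
    · have hij : i ≠ j := hac
      have hi := inr_mem_disjSum.1 ha
      have hj := inr_mem_disjSum.1 hc
      rw [hZ, mem_insert, mem_singleton] at hi hj
      show (if i = φ x then ψ x else ψ y) ≠ if j = φ x then ψ x else ψ y
      rcases hi with hi | hi <;> rcases hj with hj | hj
      · exact absurd (hi.trans hj.symm) hij
      · rw [hi, hj, if_pos rfl, if_neg hxy'.symm]; exact hψxy
      · rw [hi, hj, if_pos rfl, if_neg hxy'.symm]; exact hψxy.symm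
      · exact absurd (hi.trans hj.symm) hij
  obtain ⟨w, hwW, hwx, hwy, v, hv, hvw⟩ := hw
  -- two added edges
  set F : Finset (V × V) := {(w, x), (w, y)} with hF
  have hnc : ¬ Cb (addE G F) W K := by
    intro hc
    obtain ⟨φ, hφ⟩ := (Pool.Agent.O2.cb_fin hK).1 hc
    have hφ' : PC G W φ := fun a ha c hc hac => hφ a ha c hc (Or.inl hac)
    obtain ⟨Z, hZ, -, -, hbd⟩ := key φ hφ'
    have h1 := hbd v hv w hwW hvw
    rw [hZ, mem_insert, mem_singleton] at h1
    rcases h1 with h1 | h1
    · exact hφ w hwW x hxW (Or.inr ⟨hwx, Or.inl (by rw [hF]; exact mem_insert_self _ _)⟩) h1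
    · exact hφ w hwW y hyW (Or.inr ⟨hwy, Or.inl (by
        rw [hF]; exact mem_insert_of_mem (mem_singleton_self _))⟩) h1
  have hWlt : W.card < H.card + 1 := by
    have := card_le_card hWH
    omega
  obtain ⟨W₂, hW₂, hW₂cr, hW₂non, hW₂K, hW₂Y⟩ := addE_small ih hWlt (hWps.cb hH.cr) hnc
  have huW₂ : u ∉ W₂ := fun h => huW (hW₂ h)
  have hW₂ps : PS G H W₂ := ⟨hW₂.trans hWH, fun e => huW₂ (e ▸ hu), hW₂non⟩
  have hW₂no := hno _ hW₂ps
  have hall : w ∈ W₂ ∧ x ∈ W₂ ∧ y ∈ W₂ := by
    by_contra hcon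
    have h1 : (F.filter fun p => p.1 ∈ W₂ ∧ p.2 ∈ W₂).card ≤ 1 := by
      by_contra hc
      have h2 : F.card ≤ 2 := by rw [hF]; exact card_le_two
      have h3 : F.filter (fun p => p.1 ∈ W₂ ∧ p.2 ∈ W₂) = F :=
        eq_of_subset_of_card_le (filter_subset _ _) (by omega)
      rw [filter_eq_self] at h3
      have h4 := h3 (w, x) (by rw [hF]; exact mem_insert_self _ _)
      have h5 := h3 (w, y) (by rw [hF]; exact mem_insert_of_mem (mem_singleton_self _))
      exact hcon ⟨h4.1, h4.2, h5.2⟩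
    have h2 : ((F.filter fun p => p.1 ∈ W₂ ∧ p.2 ∈ W₂).card : ℤ) ≤ 1 := by exact_mod_cast h1
    linarith
  obtain ⟨hwW₂, hxW₂, hyW₂⟩ := hall
  have hW₂4 : Yy G K b W₂ ≤ 4 := by
    have h1 : (F.filter fun p => p.1 ∈ W₂ ∧ p.2 ∈ W₂).card ≤ 2 :=
      (card_filter_le _ _).trans (by rw [hF]; exact card_le_two)
    have h2 : ((F.filter fun p => p.1 ∈ W₂ ∧ p.2 ∈ W₂).card : ℤ) ≤ 2 := by exact_mod_cast h1
    linarith
  have hW₂gap := hH.gap T ih hW₂ps
  have hW₂r : K ∣ W₂.card - 1 := by
    by_contra h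
    have := hW₂gap.2 h
    linarith
  obtain ⟨ψ, hψ, hψwy⟩ := one_edge hK ih hH.cr hno hW₂ps.sub hW₂ps.ne hwW₂ hyW₂ hwy
  have hψwx : ψ w = ψ x := by
    by_contra hne
    apply hW₂cr.1
    apply Pool.Agent.O2.cb_of_pc (φ := ψ)
    intro a ha c hc hac
    have hF' : ∀ p q : V, (p, q) ∈ F → ψ p ≠ ψ q := by
      intro p q hpq
      rw [hF, mem_insert, mem_singleton] at hpq
      rcases hpq with h | h
      · rw [Prod.mk.injEq] at h
        rw [h.1, h.2]; exact hne
      · rw [Prod.mk.injEq] at h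
        rw [h.1, h.2]; exact hψwy
    rcases hac with hac | ⟨-, hac | hac⟩
    · exact hψ a ha c hc hac
    · exact hF' a c hac
    · exact (hF' c a hac).symm
  have hψxy : ψ x ≠ ψ y := fun e => hψwy (hψwx.trans e)
  obtain ⟨B, Z, hB, hBc, hZc, hZK, hge, hcr, hhit, hlt, hY', heq⟩ :=
    step hK ih hH.cr hW₂ps hψ ⟨w, hwW₂, x, hxW₂, hwx, hψwx⟩
  have hg := gain_nonneg G W₂ ψ B Z
  have hc1 := T.n1 (W₂.card - 1) B.card Z.card hBc hZc hZK hge
  have hdis : Disjoint W₂ B := by
    rw [disjoint_left]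
    intro x hx hx'
    exact (mem_sdiff.1 (hB hx')).2 hx
  have hcu : (W₂ ∪ B).card = W₂.card + B.card := card_union_of_disjoint hdis
  have hcu' : (W₂ ∪ B).card - 1 = W₂.card - 1 + B.card := by omega
  have hU : W₂ ∪ B = H := by
    by_contra hU
    have h1 := hno _ (union_ps hW₂ps hB hU)
    linarith
  have hBd : K ∣ B.card := by
    have h1 : K ∣ W₂.card - 1 + B.card := by
      rw [← hcu', hU]
      exact hH.res
    exact (Nat.dvd_add_right hW₂r).1 h1
  rw [hU, hH.eq] at heq
  have hZ1 : Z.card = 1 := by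
    by_contra hZ
    have := T.n5 (W₂.card - 1) B.card Z.card hBc (by omega) hZK hge hW₂r hBd
    linarith
  have huB : u ∈ B := by
    rw [union_eq hW₂ps.sub hB hU]
    exact mem_sdiff.2 ⟨hu, huW₂⟩
  have h1 := hcr.dg_ge (inl_mem_disjSum.2 huB)
  rw [Pool.Agent.O3.dg_con_inl] at h1
  have h2 : (hit G W₂ ψ u ∩ Z).card ≤ 1 := by
    rw [← hZ1]
    exact card_le_card inter_subset_right
  have h3 : 2 ≤ dg G W₂ u := by
    have h4 : ({x, y} : Finset V) ⊆ W₂.filter fun v => G.Adj u v := by
      intro v hv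
      rcases mem_insert.1 hv with h | h
      · rw [h]; exact mem_filter.2 ⟨hxW₂, hux⟩
      · rw [mem_singleton.1 h]; exact mem_filter.2 ⟨hyW₂, huy⟩
    have h5 := card_le_card h4
    rw [card_pair hxy] at h5
    exact h5
  have h4 := Pool.Agent.O2.dg_union (G := G) hdis u
  rw [hU, hud] at h4
  omega

end Pool.Agent.OW.S5
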