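import Pool.Agent.Lib_helper25.OW.T2

/-!
# Lemma T: a clique whose vertices have the smallest possible degree

A tight critical set of residue 0 in which all small sets contain `z` has a `K`-clique that does not
contain `z`, all of whose vertices have degree `K`.
-/

set_option autoImplicit false
set_option linter.unusedSectionVars false
set_option linter.unusedVariables false

open scoped Classical
open Finset
open Pool.Agent.O2 (PC Cb CrOn pr ms dg nd addE)
open Pool.Agent.O3 (con hit Clq Non)
open Pool.Agent.OW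

namespace Pool.Agent.OW.S5

variable {V : Type}

theorem dg_of_clq {G : SimpleGraph V} {Q : Finset V} (hQ : Clq G Q) {t : V} (ht : t ∈ Q) :
    dg G Q t + 1 = Q.card := by
  have h1 : (Q.filter fun y => G.Adj t y) = Q.erase t := by
    ext y
    rw [mem_filter, mem_erase]
    constructor
    · rintro ⟨h1, h2⟩
      exact ⟨h2.ne', h1⟩
    · rintro ⟨h1, h2⟩
      exact ⟨h2, hQ t ht y h2 h1.symm⟩
  unfold dg
  rw [h1, card_erase_of_mem ht]
  have := card_pos.2 ⟨t, ht⟩
  omega

theorem Yy_con_empty {K : ℕ} {b : ℕ → ℤ} {G : SimpleGraph V} {R A : Finset V} {ψ : V → Fin K} :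
    Yy (con G R ψ) K b (A.disjSum ∅) = Yy G K b A := by
  unfold Yy df
  rw [pr_con, card_disjSum]
  simp

theorem lemmaT {K : ℕ} {b : ℕ → ℤ} (T : T5 K b) {G : SimpleGraph V} {H : Finset V}
    (ih : IH K b (H.card + 1)) (hH : Tgt K b G H) {z : V} (hz : z ∈ H)
    (hsm : ∀ R, PS G H R → Yy G K b R ≤ 2 → z ∈ R) :
    ∃ Q ⊆ H.erase z, Q.card = K ∧ Clq G Q ∧ ∀ t ∈ Q, dg G H t = K := by
  have hK4 := T.hK
  have hK4' : (4 : ℤ) ≤ K := by exact_mod_cast hK4
  have hK : 0 < K := by omega
  by_cases hno : ∀ R, PS G H R → 2 < Yy G K b R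
  · have hc := tight_clique T ih hH hno
    have hq := clq_of_card hH.cr hc
    refine ⟨H.erase z, Subset.refl _, ?_, ?_, ?_⟩
    · rw [card_erase_of_mem hz, hc]; rfl
    · intro a ha c hc hac
      exact hq a (mem_of_mem_erase ha) c (mem_of_mem_erase hc) hac
    · intro t ht
      have := dg_of_clq hq (mem_of_mem_erase ht)
      omega
  push Not at hno
  obtain ⟨R₀, hR₀, hR₀Y⟩ := hno
  have hne : (H.powerset.filter fun R => PS G H R ∧ Yy G K b R ≤ 2).Nonempty :=
    ⟨R₀, mem_filter.2 ⟨mem_powerset.2 hR₀.sub, hR₀, hR₀Y⟩⟩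
  obtain ⟨R, hR, hmax⟩ := exists_max_image _ card hne
  obtain ⟨-, hRps, hRY⟩ := mem_filter.1 hR
  have hzR := hsm R hRps hRY
  obtain ⟨ψ, hψ, hni⟩ := hRps.noninj hK hH.cr
  obtain ⟨hRd, hRY2, c, hT', hg, hlt⟩ := hH.eq2 T ih hRps hRY hψ hni
  have ih' : IH K b (((H \ R).disjSum {c}).card + 1) := by
    intro V' G' S' h1 h2
    exact ih V' G' S' h1 (by omega)
  have hRc := card_pos.2 hRps.nonempty
  have hcc : ∀ A : Finset V, (A.disjSum ({c} : Finset (Fin K))).card = A.card + 1 := by
    intro A
    rw [card_disjSum, card_singleton]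
  have hno' : ∀ R', PS (con G R ψ) ((H \ R).disjSum {c}) R' →
      2 < Yy (con G R ψ) K b R' := by
    intro R' hR'
    by_contra hle
    rw [not_lt] at hle
    obtain ⟨A, Z, rfl⟩ := eq_disjSum R'
    have hA : A ⊆ H \ R := fun v hv => inl_mem_disjSum.1 (hR'.sub (inl_mem_disjSum.2 hv))
    have hZ : Z ⊆ {c} := fun v hv => inr_mem_disjSum.1 (hR'.sub (inr_mem_disjSum.2 hv))
    have hzA : z ∉ A := fun h => (mem_sdiff.1 (hA h)).2 hzR
    rcases subset_singleton_iff.1 hZ with h0 | h0
    · subst h0
      rw [Yy_con_empty] at hle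
      refine hzA (hsm A ⟨hA.trans sdiff_subset, fun e => hzA (e ▸ hz), ?_⟩ hle)
      obtain ⟨p, hp, q, hq, hpq, hna⟩ := hR'.non
      obtain ⟨p', rfl⟩ | ⟨i, rfl⟩ : (∃ p', p = Sum.inl p') ∨ ∃ i, p = Sum.inr i := by
        rcases p with p' | i
        · exact Or.inl ⟨p', rfl⟩
        · exact Or.inr ⟨i, rfl⟩
      · obtain ⟨q', rfl⟩ | ⟨j, rfl⟩ : (∃ q', q = Sum.inl q') ∨ ∃ i, q = Sum.inr i := by
          rcases q with q' | i
          · exact Or.inl ⟨q', rfl⟩
          · exact Or.inr ⟨i, rfl⟩
        · exact ⟨p', inl_mem_disjSum.1 hp, q', inl_mem_disjSum.1 hq,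
            fun e => hpq (by rw [e]), hna⟩
        · exact absurd (inr_mem_disjSum.1 hq) (notMem_empty j)
      · exact absurd (inr_mem_disjSum.1 hp) (notMem_empty i)
    · subst h0
      -- the lifted set
      have hgA : gain G R ψ A {c} = 0 := by
        unfold gain
        apply sum_eq_zero
        intro v hv
        have h1 := gain_zero hg (hA hv)
        rw [h1]
        ring
      have hdis : Disjoint R A := by
        rw [disjoint_left]
        intro v hv hv'
        exact (mem_sdiff.1 (hA hv')).2 hv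
      have hcu : (R ∪ A).card = R.card + A.card := card_union_of_disjoint hdis
      have hAd : K ∣ A.card := by
        have h1 := (hT'.gap T ih' hR').2
        rw [hcc, Nat.add_sub_cancel] at h1
        by_contra h2
        have := h1 h2
        linarith
      have hA0 : A.Nonempty := by
        rw [nonempty_iff_ne_empty]
        rintro rfl
        obtain ⟨p, hp, q, hq, hpq, hna⟩ := hR'.non
        rcases p with p' | i
        · exact absurd (inl_mem_disjSum.1 hp) (notMem_empty p')
        · rcases q with q' | j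
          · exact absurd (inl_mem_disjSum.1 hq) (notMem_empty q')
          · have h1 := mem_singleton.1 (inr_mem_disjSum.1 hp)
            have h2 := mem_singleton.1 (inr_mem_disjSum.1 hq)
            exact hpq (by rw [h1, h2])
      have hU : PS G H (R ∪ A) := by
        apply union_ps hRps hA
        intro e
        apply hR'.ne
        rw [union_eq hRps.sub hA e]
      have hdf := df_ext (K := K) G hdis ψ {c}
      have hY : Yy G K b (R ∪ A) ≤ 2 := by
        have h1 := T.mul (R.card - 1) A.card hRd hAd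
        unfold Yy at hRY2 hle ⊢
        rw [hcc, Nat.add_sub_cancel] at hle
        have h2 : (R ∪ A).card - 1 = R.card - 1 + A.card := by omega
        rw [h2, h1, hdf, hgA, card_singleton]
        push_cast
        linarith
      have h1 := hmax (R ∪ A) (mem_filter.2 ⟨mem_powerset.2 hU.sub, hU, hY⟩)
      have h2 := card_pos.2 hA0
      omega
  have hc' := tight_clique T ih' hT' hno'
  have hq' := clq_of_card hT'.cr hc'
  rw [hcc] at hc'
  have hQ : Clq G (H \ R) := by
    intro a ha d hd had
    exact hq' (Sum.inl a) (inl_mem_disjSum.2 ha) (Sum.inl d) (inl_mem_disjSum.2 hd)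
      (fun e => had (Sum.inl_injective e))
  refine ⟨H \ R, ?_, by omega, hQ, ?_⟩
  · intro v hv
    have := mem_sdiff.1 hv
    refine mem_erase.2 ⟨?_, this.1⟩
    rintro rfl
    exact this.2 hzR
  · intro t ht
    have h1 : c ∈ hit G R ψ t := hq' (Sum.inl t) (inl_mem_disjSum.2 ht) (Sum.inr c)
      (inr_mem_disjSum.2 (mem_singleton_self c)) (by simp)
    have h2 := gain_zero hg ht
    have h3 : (hit G R ψ t ∩ {c}).card = 1 := by
      rw [inter_singleton_of_mem h1, card_singleton]
    have h4 := dg_of_clq hQ ht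
    have h5 : Disjoint R (H \ R) := disjoint_sdiff
    have h6 := Pool.Agent.O2.dg_union (G := G) h5 t
    rw [union_sdiff_of_subset hRps.sub] at h6
    omega

end Pool.Agent.OW.S5
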